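import Mathlib
import Pool.Agent.Helper320.GBaseA
import Pool.Agent.Helper320.GL
import Pool.Agent.Helper320.GTI
import Pool.Agent.Helper320.GDV
import Pool.Agent.Helper320.GC3
import Pool.Agent.Helper320.GCAP
import Pool.Agent.Helper320.GEU
import Pool.Agent.Helper320.GA1
import Pool.Agent.Helper320.GA5
import Pool.Agent.Helper320.GA6
import Pool.Agent.Helper320.GA4
import Pool.Agent.Helper320.GA7
import Pool.Agent.Helper320.GFC
import Pool.Agent.Helper320.GA8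

set_option autoImplicit false
open Set

namespace Pool.Agent.H320.Def.Core

open Pool.Agent.Helper320.Gold Pool.Agent.Helper320.Gold.NL Pool.Agent.Helper320.Gold.NTI Pool.Agent.Helper320.Gold.NDV Pool.Agent.Helper320.Gold.NC3 Pool.Agent.Helper320.Gold.NCAP Pool.Agent.Helper320.Gold.NEU Pool.Agent.Helper320.Gold.NA1 Pool.Agent.Helper320.Gold.NA5 Pool.Agent.Helper320.Gold.NA6 Pool.Agent.Helper320.Gold.NA4 Pool.Agent.Helper320.Gold.NA7 Pool.Agent.Helper320.Gold.NFC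

theorem coreA_contra {S : Finset E3} (hS : Good S)
    (hdf : {v | v ∈ S ∧ {w | Adj S v w}.ncard ≠ 6}.ncard ≤ 12)
    {q : ℝ} (hq0 : 0 < q) (hq : q ≤ 1e-9)
    (hcov : ∀ a : E3, ‖a‖ = 1 → ∃ x ∈ S, ‖a - x‖ ≤ q) {A0 ε l : ℝ} (hA : 0 < A0)
    (hε : 0 ≤ ε) (hAn : 6 * S.card * A0 = 4 * Real.pi)
    (hvol : (MeasureTheory.volume (polar S)).toReal ≤
      4 * Real.pi / 3 + 2 * Real.pi * A0 / k0 * (1 + ε))
    (hl0 : 0 < l) (hl : l ≤ 1e-6) (hlA : 6 * A0 = √3 / 2 * l ^ 2)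
    (h1 : √(ε + q ^ 2) ≤ 1e-10) (h2 : (ε + q ^ 2) * q ≤ 1e-39 * l) : False := by
  classical
  have hq5 : q ≤ 1e-5 := hq.trans (by norm_num)
  have hq20 : q ≤ 1 / 20 := hq.trans (by norm_num)
  have s3 : √3 ^ 2 = (3:ℝ) := Real.sq_sqrt (by norm_num)
  have s3p : 0 < √(3:ℝ) := Real.sqrt_pos.2 (by norm_num)
  have s3l : (1.73205:ℝ) < √3 := by
    rw [Real.lt_sqrt (by norm_num)]; norm_num
  have s3u : √3 < (1.73206:ℝ) := by
    rw [Real.sqrt_lt' (by norm_num)]; norm_num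
  -- the defects
  obtain ⟨P, hPdef⟩ : ∃ P : Finset E3, ∀ v, v ∈ P ↔ v ∈ S ∧ {w | Adj S v w}.ncard ≠ 6 :=
    ⟨S.filter (fun v => {w | Adj S v w}.ncard ≠ 6), fun v => Finset.mem_filter⟩
  have hPc : P.card ≤ 12 := by
    have hP : {v | v ∈ S ∧ {w | Adj S v w}.ncard ≠ 6} = (P : Set E3) := by
      ext v
      simp only [Set.mem_setOf_eq, Finset.mem_coe]
      exact (hPdef v).symm
    rw [hP, Set.ncard_coe_finset] at hdf
    exact hdf
  obtain ⟨p, hp, hfar⟩ := exists_far P hPc (fun x hx => hS.unit x ((hPdef x).1 hx).1)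
  have hval : ∀ v ∈ S, ‖v - p‖ < 0.5773 → {w | Adj S v w}.ncard = 6 := by
    intro v hv hvp
    by_contra h
    exact absurd (hfar v ((hPdef v).2 ⟨hv, h⟩)) (not_le.2 hvp)
  obtain ⟨T, D, hTD, hT2⟩ := exists_dev hS hp (r := 0.5773) (r1 := 0.577) (q := q)
    (by norm_num) (by norm_num) hq0.le (by norm_num; linarith) hcov hval
  have hAdjS : ∀ v w, Adj S v w → v ∈ S ∧ w ∈ S := by
    rintro v w ⟨_, a, _, ha⟩
    exact ⟨((ha v).2 (Or.inl rfl)).1, ((ha w).2 (Or.inr rfl)).1⟩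
  have hdev : Dev S p q T D :=
    ⟨fun v hv h k => (hAdjS _ _ (hTD v hv h k).1).2,
      fun v hv h k => (hTD v hv h k).2,
      fun v hv h k => by
        rw [norm_sub_rev]; exact adj_near hS hcov (hTD v hv h k).1,
      fun v hv h k hk => (hT2 v hv h k hk).1,
      fun v hv h k hk => (hT2 v hv h k hk).2⟩
  -- the bad facets
  obtain ⟨Bt, hBt⟩ : ∃ Bt : Finset (E3 × E3 × E3), ∀ t, t ∈ Bt ↔ t ∈ FS S ∧ 1e-20 * A0 ^ 2 < pt S A0 t :=
    ⟨(FS S).filter (fun t => 1e-20 * A0 ^ 2 < pt S A0 t), fun t => Finset.mem_filter⟩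
  have hpt0 : ∀ t ∈ FS S, 0 ≤ pt S A0 t := by
    intro t ht
    obtain ⟨-, a1, a2, a3, a4, -, -⟩ := fan_shape hS ht
    have := penA_bound hA a1 a2 a3 a4
    exact le_trans (by positivity) this
  have hsum := sum_penA hS hq20 hq0.le hcov hA hε hAn hvol
  have hBcard : (Bt.card : ℝ) * (1e-20 * A0 ^ 2) ≤ 25 * A0 * (ε + q ^ 2) := by
    calc (Bt.card : ℝ) * (1e-20 * A0 ^ 2) = ∑ t ∈ Bt, (1e-20 * A0 ^ 2) := by
          rw [Finset.sum_const, nsmul_eq_mul]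
      _ ≤ ∑ t ∈ Bt, pt S A0 t := Finset.sum_le_sum (fun t ht => ((hBt t).1 ht).2.le)
      _ ≤ ∑ t ∈ FS S, pt S A0 t :=
          Finset.sum_le_sum_of_subset_of_nonneg (fun t ht => ((hBt t).1 ht).1)
            (fun t ht _ => hpt0 t ht)
      _ ≤ _ := hsum
  have hBcard2 : (Bt.card : ℝ) * (1e-20 * A0) ≤ 25 * (ε + q ^ 2) := by
    have : A0 * ((Bt.card : ℝ) * (1e-20 * A0)) ≤ A0 * (25 * (ε + q ^ 2)) := by nlinarith
    exact le_of_mul_le_mul_left this hA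
  have hBadc : ((Bt.image (fun t => t.1)).card : ℝ) * l * q ≤ 1e-16 := by
    have h0 : ((Bt.image (fun t => t.1)).card : ℝ) ≤ (Bt.card : ℝ) := by
      exact_mod_cast Finset.card_image_le
    have h0' : ((Bt.image (fun t => t.1)).card : ℝ) * l * q ≤ (Bt.card : ℝ) * l * q := by
      gcongr
    refine h0'.trans ?_
    have e1 : A0 = √3 / 12 * l ^ 2 := by linarith
    have e2 : (Bt.card : ℝ) * (1e-20 * (√3 / 12 * l ^ 2)) * q ≤ 25 * (1e-39 * l) := by
      rw [e1] at hBcard2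
      calc (Bt.card : ℝ) * (1e-20 * (√3 / 12 * l ^ 2)) * q ≤ 25 * (ε + q ^ 2) * q :=
            mul_le_mul_of_nonneg_right hBcard2 hq0.le
        _ = 25 * ((ε + q ^ 2) * q) := by ring
        _ ≤ _ := by linarith
    have e3 : l * ((Bt.card : ℝ) * l * q * (1e-20 * (√3 / 12))) ≤ l * 25e-39 := by
      calc l * ((Bt.card : ℝ) * l * q * (1e-20 * (√3 / 12)))
          = (Bt.card : ℝ) * (1e-20 * (√3 / 12 * l ^ 2)) * q := by ring
        _ ≤ 25 * (1e-39 * l) := e2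
        _ = l * 25e-39 := by ring
    have e4 := le_of_mul_le_mul_left e3 hl0
    have hN : 0 ≤ (Bt.card : ℝ) * l * q := by positivity
    have e5 : (Bt.card : ℝ) * l * q * (1e-20 * (1.73205 / 12)) ≤ 25e-39 := by
      refine le_trans ?_ e4
      gcongr
    norm_num at e5 ⊢
    linarith
  have hgood : ∀ v ∈ S, ‖v - p‖ < 0.577 → v ∉ Bt.image (fun t => t.1) →
      ∀ k, |‖T k v - v‖ - l| ≤ 1e-4 * l := by
    intro v hv hvp hvB k
    obtain ⟨w, hw⟩ : ∃ w, w = T k v := ⟨_, rfl⟩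
    have hadj : Adj S v w := hw ▸ (hTD v hv hvp k).1
    obtain ⟨hF, htp⟩ := nxt_spec hS hadj
    have hF' := hF
    obtain ⟨-, -, -, a, -, ha⟩ := hF'
    have m3 : nxt S v w ∈ S := ((ha _).2 (Or.inr (Or.inr rfl))).1
    have hwS := (hAdjS _ _ hadj).2
    obtain ⟨t, ht⟩ : ∃ t : E3 × E3 × E3, t = (v, w, nxt S v w) := ⟨_, rfl⟩
    have htF : t ∈ FS S := by
      rw [ht]
      unfold FS
      simp only [Finset.mem_filter, Finset.mem_product]
      exact ⟨⟨hv, hwS, m3⟩, hF, htp⟩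
    have ht1 : t.1 = v := by rw [ht]
    have ht2 : t.2.1 = w := by rw [ht]
    have hpt : pt S A0 t ≤ 1e-20 * A0 ^ 2 := by
      by_contra hcon
      apply hvB
      rw [Finset.mem_image]
      exact ⟨t, (hBt t).2 ⟨htF, not_le.1 hcon⟩, ht1⟩
    obtain ⟨-, a1, a2, a3, a4, -, -⟩ := fan_shape hS htF
    obtain ⟨b1, b2, b3⟩ := penA_shape hl0 hlA a1 a2 a3 a4 hpt
    obtain ⟨c1, c2, c3, c4, -, -, -⟩ := fan_spec hS htF
    unfold ang at b3
    rw [ht1] at b1 b2 b3 c1 c2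
    rw [ht2] at c3 c4
    have := edge_from_shape (hS.unit v hv) (hS.unit w hwS) hadj.1 c2 c1 c4 c3 hl0 hl b1 b2 b3
    rw [← hw, norm_sub_rev]
    exact this
  have hup : ∀ v ∈ S, ‖v - p‖ < 0.002 →
      ((S.filter (fun w => ‖w - v‖ < 0.5748)).card : ℝ) * l ^ 2 ≤ 1.2 := by
    intro v hv hvp
    have h6 : ∀ w ∈ S, ‖w - v‖ < 0.5748 → ((FS S).filter (fun t => t.1 = w)).card = 6 := by
      intro w hw hwv
      rw [fiber_card hS w hw]
      apply hval w hw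
      calc ‖w - p‖ = ‖(w - v) + (v - p)‖ := by congr 1; abel
        _ ≤ ‖w - v‖ + ‖v - p‖ := norm_add_le _ _
        _ < 0.5748 + 0.002 := by linarith
        _ < 0.5773 := by norm_num
    have hc := countA_upper hS hq20 hq0.le hcov hA hε hAn hvol (hS.unit v hv) (κ := 0.5748)
      (by norm_num) (by norm_num) h6
    rw [hlA] at hc
    have hpi : Real.pi < 3.1416 := Real.pi_lt_d4
    have hpi0 := Real.pi_pos
    have b1 : Real.pi * (0.5748 + q) ^ 2 * (1 + 3 * q ^ 2) ≤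
        3.1416 * (0.5748 + 1e-9) ^ 2 * (1 + 3 * (1e-9) ^ 2) := by
      gcongr
    have b2 : (3.1416:ℝ) * (0.5748 + 1e-9) ^ 2 * (1 + 3 * (1e-9) ^ 2) + 600 * 1e-10 ≤ 1.0381 := by
      norm_num
    have b3 : ((S.filter (fun w => ‖w - v‖ < 0.5748)).card : ℝ) * (√3 / 2 * l ^ 2) ≤ 1.0381 := by
      linarith
    have b4 : ((S.filter (fun w => ‖w - v‖ < 0.5748)).card : ℝ) * l ^ 2 * (1.73205 / 2) ≤
        1.0381 := by
      refine le_trans ?_ b3
      have hN : 0 ≤ ((S.filter (fun w => ‖w - v‖ < 0.5748)).card : ℝ) * l ^ 2 := by positivity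
      nlinarith
    norm_num at b4 ⊢
    linarith
  have hM : 1e-6 ≤ ((S.filter (fun v => ‖v - p‖ < 0.002)).card : ℝ) * l ^ 2 := by
    have h6 : ∀ w ∈ S, ‖w - p‖ < 0.002 → ((FS S).filter (fun t => t.1 = w)).card = 6 := by
      intro w hw hwv
      rw [fiber_card hS w hw]
      apply hval w hw
      exact hwv.trans (by norm_num)
    have hc := countA_lower hS hq5 hq0.le hcov hA hε hAn hvol hp h6
    rw [hlA] at hc
    have hN : 0 ≤ ((S.filter (fun v => ‖v - p‖ < 0.002)).card : ℝ) * l ^ 2 := by positivity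
    have b1 : ((S.filter (fun v => ‖v - p‖ < 0.002)).card : ℝ) * (√3 / 2 * l ^ 2) ≤
        ((S.filter (fun v => ‖v - p‖ < 0.002)).card : ℝ) * l ^ 2 := by nlinarith
    have b2 : (1e-6:ℝ) ≤ 3e-6 - 600 * 1e-10 := by norm_num
    linarith
  exact count_contra hdev hS.unit hq0 hq5 hl0 hl (by norm_num) le_rfl _ hBadc hgood hup hM

end Pool.Agent.H320.Def.Core
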