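import Mathlib
import Pool.Agent.Helper320.GBaseA
import Pool.Agent.Helper320.GLC
import Pool.Agent.Helper320.GA6
import Pool.Agent.Helper320.GA9
import Pool.Agent.H320.Def.Core

set_option autoImplicit false
open Set

namespace Pool.Agent.H320.Def.Quant

open Pool.Agent.Helper320.Gold Pool.Agent.Helper320.Gold.NLC Pool.Agent.Helper320.Gold.NA6 Pool.Agent.Helper320.Gold.NA9

/-- everything in terms of `δ = n ^ (-1/16)` -/
theorem q12_core (C : ℝ) (hC : 0 < C) (κ : ℝ) (hκ0 : 0 < κ)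
    (hκ : κ ^ 4 = 300 * C + 1500 ^ 2) {δ : ℝ} (hδ0 : 0 < δ)
    (hδ : (200 * (1 + C) + (C + κ ^ 2) * (1 + κ) + κ + 4) * δ ≤ 1e-40) {n : ℕ} (hn : 0 < n)
    (hδn : δ ^ 16 = 1 / n) {S : Finset E3}
    (hS : Good S) (hcard : S.card = n)
    (h56 : {v | v ∈ S ∧ {w | Adj S v w}.ncard ≠ 6}.ncard ≤ 12)
    (hvol : (MeasureTheory.volume (polar S)).toReal ≤
      4 * Real.pi / 3 + 20 * Real.pi ^ 2 / (9 * √3 * n) * (1 + C * δ ^ 4)) : False := by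
  obtain ⟨q, hq0, z, hz, hzS, hcov⟩ := exists_cov hS
  have hpi1 := Real.pi_gt_d4
  have hpi2 := Real.pi_lt_d4
  obtain ⟨hs1, hs2⟩ := j3914_s3
  have hn0 : (0 : ℝ) < n := by exact_mod_cast hn
  obtain ⟨hD1, hD3, hD4, hCκ2, hCκ3⟩ := j3914_D hC hκ0 hδ0 hδ
  have hδ1 : δ ≤ 1 := by
    have : (1e-40 : ℝ) ≤ 1 := by norm_num
    linarith
  have hp : ∀ k : ℕ, k ≠ 0 → δ ^ k ≤ δ := fun k hk => pow_le_of_le_one hδ0.le hδ1 hk
  have hp0 : ∀ k : ℕ, 0 < δ ^ k := fun k => pow_pos hδ0 k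
  -- crude bound for the volume
  have hfac : 20 * Real.pi ^ 2 / (9 * √3 * n) = 20 * Real.pi ^ 2 / (9 * √3) * δ ^ 16 := by
    rw [hδn, ← div_div, mul_one_div]
  rw [hfac] at hvol
  obtain ⟨hup, hup', hup''⟩ := j3914_up hC hδ0 hδ1 hD1 hvol
  -- q ≤ 1
  have hq1 : q ≤ 1 := by
    by_contra hcon
    push Not at hcon
    have h1 := holeA_crude hS hz (r := 1) (by norm_num) le_rfl
      (fun x hx => hcon.le.trans (hzS x hx))
    rw [one_pow, mul_one] at h1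
    have h2 : (1e-40 : ℝ) < 1 / 100 := by norm_num
    linarith
  -- q ≤ 1 / 20
  have hq4 : q ^ 4 ≤ 133 * (1 + C) * δ ^ 16 := by
    have h1 := holeA_crude hS hz hq0.le hq1 hzS
    have h2 : Real.pi * q ^ 4 / 32 ≤ 13 * (1 + C) * δ ^ 16 := h1.trans hup
    have h4 : 0 < q ^ 4 := by positivity
    have h5 : 3.14 * q ^ 4 ≤ Real.pi * q ^ 4 := mul_le_mul_of_nonneg_right (by linarith) h4.le
    have h6 : 3.14 * q ^ 4 ≤ 32 * (13 * (1 + C) * δ ^ 16) := by linarith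
    have h7 : 0 < (1 + C) * δ ^ 16 := mul_pos (by linarith) (hp0 16)
    linarith
  have hq20 : q ≤ 1 / 20 := by
    have h1 : q ^ 4 ≤ (1 / 20) ^ 4 := by
      have h5 : (1e-40 : ℝ) ≤ (1 / 20) ^ 4 := by norm_num
      linarith
    exact le_of_pow_le_pow_left₀ (by norm_num) (by norm_num) h1
  -- the refined bound
  set A0 : ℝ := 2 * Real.pi / 3 * δ ^ 16 with hA0
  have hA0p : 0 < A0 := by have := hp0 16; positivity
  have hA0u : A0 ≤ 2.1 * δ ^ 16 := by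
    rw [hA0]
    apply mul_le_mul_of_nonneg_right _ (hp0 16).le
    linarith
  have hAn : 6 * (S.card : ℝ) * A0 = 4 * Real.pi := by
    rw [hcard, hA0, hδn]
    have hne : (n : ℝ) ≠ 0 := hn0.ne'
    field_simp
    norm_num
  have hε : 0 ≤ C * δ ^ 4 := mul_nonneg hC.le (hp0 4).le
  have hvol' : (MeasureTheory.volume (polar S)).toReal ≤
      4 * Real.pi / 3 + 2 * Real.pi * A0 / k0 * (1 + C * δ ^ 4) := by
    rw [hA0, j3914_k]
    exact hvol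
  have hb := holeA_bound hS hq20 hq0.le hcov hz hzS hA0p hε hAn hvol'
  have hq4' : q ^ 4 ≤ κ ^ 4 * δ ^ 20 := by
    rw [hκ]
    exact j3914_q4 hC hδ0 hδ1 hq0 hA0u hb
  have hqκ : q ≤ κ * δ ^ 5 := by
    have h1 : q ^ 4 ≤ (κ * δ ^ 5) ^ 4 := by
      rw [mul_pow, ← pow_mul]
      exact hq4'
    exact le_of_pow_le_pow_left₀ (by norm_num) (by have := hp0 5; positivity) h1
  have hsum : C * δ ^ 4 + q ^ 2 ≤ (C + κ ^ 2) * δ ^ 4 := by
    have h1 : q ^ 2 ≤ (κ * δ ^ 5) ^ 2 := pow_le_pow_left₀ hq0.le hqκ 2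
    have h2 : (κ * δ ^ 5) ^ 2 = κ ^ 2 * δ ^ 10 := by ring
    have h3 : δ ^ 10 ≤ δ ^ 4 := pow_le_pow_of_le_one hδ0.le hδ1 (by norm_num)
    have h4 : κ ^ 2 * δ ^ 10 ≤ κ ^ 2 * δ ^ 4 := mul_le_mul_of_nonneg_left h3 (sq_nonneg κ)
    calc C * δ ^ 4 + q ^ 2 ≤ C * δ ^ 4 + κ ^ 2 * δ ^ 4 := by linarith
      _ = (C + κ ^ 2) * δ ^ 4 := by ring
  -- the length
  obtain ⟨hL0l, hL0u⟩ := j3914_L
  set L0 : ℝ := √(8 * Real.pi / √3) with hL0
  have hL0p : 0 < L0 := by linarith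
  have hlp : 0 < L0 * δ ^ 8 := mul_pos hL0p (hp0 8)
  refine Pool.Agent.H320.Def.Core.coreA_contra hS h56 hq0 ?_ hcov (A0 := A0) (ε := C * δ ^ 4) (l := L0 * δ ^ 8) hA0p hε hAn
    hvol' hlp ?_ ?_ ?_ ?_
  · refine hqκ.trans ?_
    have h1 : κ * δ ^ 5 ≤ κ * δ := mul_le_mul_of_nonneg_left (hp 5 (by norm_num)) hκ0.le
    have h2 : (1e-40 : ℝ) ≤ 1e-9 := by norm_num
    linarith
  · have h1 : L0 * δ ^ 8 ≤ 4 * δ := by
      apply mul_le_mul hL0u (hp 8 (by norm_num)) (hp0 8).le (by norm_num)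
    have h2 : (1e-40 : ℝ) ≤ 1e-6 := by norm_num
    linarith
  · exact j3914_l δ
  · rw [Real.sqrt_le_left (by norm_num)]
    refine hsum.trans ?_
    have h1 : (C + κ ^ 2) * δ ^ 4 ≤ (C + κ ^ 2) * δ :=
      mul_le_mul_of_nonneg_left (hp 4 (by norm_num)) (by positivity)
    have h2 : (1e-40 : ℝ) ≤ 1e-10 ^ 2 := by norm_num
    linarith
  · calc (C * δ ^ 4 + q ^ 2) * q ≤ (C + κ ^ 2) * δ ^ 4 * (κ * δ ^ 5) :=
          mul_le_mul hsum hqκ hq0.le (by have := hp0 4; positivity)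
      _ = (C + κ ^ 2) * κ * δ * δ ^ 8 := by ring
      _ ≤ 1e-40 * δ ^ 8 := mul_le_mul_of_nonneg_right hCκ3 (hp0 8).le
      _ ≤ 1e-39 * (L0 * δ ^ 8) := by
        have h1 := hp0 8
        have h2 : δ ^ 8 ≤ L0 * δ ^ 8 := by nlinarith
        have h3 : (1e-40 : ℝ) * δ ^ 8 ≤ 1e-39 * δ ^ 8 := by
          apply mul_le_mul_of_nonneg_right _ h1.le
          norm_num
        have h4 : (1e-39 : ℝ) * δ ^ 8 ≤ 1e-39 * (L0 * δ ^ 8) := by
          apply mul_le_mul_of_nonneg_left h2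
          norm_num
        linarith

theorem no_good12 (C : ℝ) (hC : 0 < C) : ∃ N : ℕ, ∀ n : ℕ, N ≤ n → ∀ S : Finset E3,
    Good S → S.card = n →
    {v | v ∈ S ∧ {w | Adj S v w}.ncard ≠ 6}.ncard ≤ 12 →
    (MeasureTheory.volume (polar S)).toReal ≤
      4 * Real.pi / 3 + 20 * Real.pi ^ 2 / (9 * √3 * n) * (1 + C * (n : ℝ) ^ (-(1 / 4 : ℝ))) →
    False := by
  set K : ℝ := 300 * C + 1500 ^ 2 with hK
  have hK0 : 0 < K := by positivity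
  obtain ⟨κ, hκ0, hκ⟩ : ∃ κ : ℝ, 0 < κ ∧ κ ^ 4 = K := by
    refine ⟨√(√K), Real.sqrt_pos.2 (Real.sqrt_pos.2 hK0), ?_⟩
    calc √(√K) ^ 4 = (√(√K) ^ 2) ^ 2 := by ring
      _ = (√K) ^ 2 := by rw [Real.sq_sqrt (Real.sqrt_nonneg K)]
      _ = K := Real.sq_sqrt hK0.le
  set D : ℝ := 200 * (1 + C) + (C + κ ^ 2) * (1 + κ) + κ + 4 with hD
  have hD0 : 0 < D := by positivity
  have hlim : Filter.Tendsto (fun n : ℕ => (n : ℝ) ^ (-(1 / 16) : ℝ)) Filter.atTop (nhds 0) :=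
    (tendsto_rpow_neg_atTop (by norm_num : (0 : ℝ) < 1 / 16)).comp tendsto_natCast_atTop_atTop
  have hev := hlim.eventually (gt_mem_nhds (show (0 : ℝ) < 1e-40 / D by positivity))
  obtain ⟨N, hN⟩ := Filter.eventually_atTop.1 hev
  refine ⟨max N 1, fun n hn S hS hcard h56 hvol => ?_⟩
  have hnN : N ≤ n := (le_max_left _ _).trans hn
  have hn1 : 1 ≤ n := (le_max_right _ _).trans hn
  have hn0 : (0 : ℝ) < n := by exact_mod_cast hn1
  have h1 := hN n hnN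
  set δ : ℝ := (n : ℝ) ^ (-(1 / 16) : ℝ) with hδ
  have hδ0 : 0 < δ := Real.rpow_pos_of_pos hn0 _
  have h2 : D * δ ≤ 1e-40 := by
    rw [lt_div_iff₀ hD0] at h1
    linarith
  have h16 : δ ^ 16 = 1 / n := by
    rw [hδ, ← Real.rpow_mul_natCast hn0.le]
    norm_num
    rw [Real.rpow_neg_one]
  have h4 : δ ^ 4 = (n : ℝ) ^ (-(1 / 4 : ℝ)) := by
    rw [hδ, ← Real.rpow_mul_natCast hn0.le]
    norm_num
  rw [← h4] at hvol
  exact q12_core C hC κ hκ0 hκ hδ0 h2 (by omega) h16 hS hcard h56 hvol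

end Pool.Agent.H320.Def.Quant
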