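import Mathlib
import Pool.Agent.Helper320.GBaseG
import Pool.Agent.Helper320.GA9
import Pool.Agent.Helper320.GB3
import Pool.Agent.Helper320.GG1
import Pool.Agent.Helper320.GG2
import Pool.Agent.Helper320.GG3
import Pool.Agent.Helper320.GG4
import Pool.Agent.Helper320.GG5
import Pool.Agent.Helper320.GG6
import Pool.Agent.Helper320.GG7
import Pool.Agent.Helper320.GG8
import Pool.Agent.Helper320.GG9
import Pool.Agent.Helper320.GFinG
import Pool.Agent.H320.Def.Quant

set_option autoImplicit false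
open Set
open scoped Pointwise

namespace Pool.Agent.H320.Def.Main

open Pool.Agent.Helper320.Gold Pool.Agent.Helper320.Gold.NA9 Pool.Agent.Helper320.Gold.NB3 Pool.Agent.Helper320.Gold.NG1 Pool.Agent.Helper320.Gold.NG2 Pool.Agent.Helper320.Gold.NG3 Pool.Agent.Helper320.Gold.NG4 Pool.Agent.Helper320.Gold.NG5 Pool.Agent.Helper320.Gold.NG6 Pool.Agent.Helper320.Gold.NG7 Pool.Agent.Helper320.Gold.NG8 Pool.Agent.Helper320.Gold.NG9 Pool.Agent.Helper320.Gold.NFinG Pool.Agent.H320.Def.Quant

/-- simple, with `f` faces, at most twelve of which are not hexagons -/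
def Q12 (P : Set E3) (f : ℕ) : Prop :=
  numFaces P = f ∧ IsSimple P ∧ {F : Set E3 | IsFace P 2 F ∧ sides P F ≠ 6}.ncard ≤ 12

theorem q12_hom {P : Set E3} {f : ℕ} (hP : Q12 P f) {c : ℝ} (hc : 0 < c) (t : E3) :
    Q12 ((fun x => c • x + t) '' P) f := by
  obtain ⟨h1, h2, h3⟩ := hP
  refine ⟨by rw [numFaces_hom P hc t, h1], ?_, ?_⟩
  · intro v hv
    obtain ⟨w, hw⟩ : ∃ w, (fun x => c • x + t) w = v := by
      rw [← homH_coe c hc.ne' t]
      exact (homH c hc.ne' t).surjective v
    subst hw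
    rw [show ({(fun x => c • x + t) w} : Set E3) = (fun x => c • x + t) '' {w} by
      rw [image_singleton], face_hom P 0 {w} hc t] at hv
    refine Eq.trans ?_ (h2 w hv)
    refine faces_image P 1 _ _ hc t (fun F => ?_)
    exact (hom_inj c hc.ne' t).mem_set_image
  · refine le_trans (le_of_eq ?_) h3
    exact faces_image P 2 (fun G => sides ((fun x => c • x + t) '' P) G ≠ 6)
      (fun F => sides P F ≠ 6) hc t (fun F => by rw [sides_hom P F hc t])

theorem defects_polar {S : Finset E3} (hS : ∀ x ∈ S, ‖x‖ = 1)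
    (ho : ∀ a : E3, a ≠ 0 → ∃ x ∈ S, 0 < inner ℝ a x)
    (h : {F : Set E3 | IsFace (polar S) 2 F ∧ sides (polar S) F ≠ 6}.ncard ≤ 12) :
    {v | v ∈ S ∧ {w | Adj S v w}.ncard ≠ 6}.ncard ≤ 12 := by
  have HT := PD_polar hS ho
  have hint := (PD_poly HT).1.1
  have hN := nrmls_polar hS ho
  have himg : {F : Set E3 | IsFace (polar S) 2 F} = fc (polar S) '' (S : Set E3) := by
    ext G
    rw [Set.mem_setOf_eq, face_iff hint, Set.mem_image, hN]
    constructor
    · rintro ⟨u, hu, rfl⟩; exact ⟨u, hu, rfl⟩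
    · rintro ⟨u, hu, rfl⟩; exact ⟨u, hu, rfl⟩
  have hinj : Set.InjOn (fc (polar S)) (S : Set E3) := by
    rw [← Set.ncard_image_iff S.finite_toSet, ← himg]
    have := numFaces_eq hint
    rw [hN] at this
    exact this
  have hfin : {F : Set E3 | IsFace (polar S) 2 F ∧ sides (polar S) F ≠ 6}.Finite := by
    refine (S.finite_toSet.image (fc (polar S))).subset ?_
    rw [← himg]
    exact fun F hF => hF.1
  refine le_trans (Set.ncard_le_ncard_of_injOn (fc (polar S)) ?_ ?_ hfin) h
  · rintro v ⟨hv, hv6⟩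
    refine ⟨?_, ?_⟩
    · have : fc (polar S) v ∈ {F : Set E3 | IsFace (polar S) 2 F} := by
        rw [himg]; exact ⟨v, hv, rfl⟩
      exact this
    · rw [sides_eq hS ho hv]
      exact hv6
  · exact hinj.mono (fun v hv => hv.1)

/-- polyhedra with at most twelve non-hexagonal faces are not optimal -/
theorem main12 : ∃ N : ℕ, ∀ f : ℕ, N ≤ f → ∀ P : Set E3, IsPolyhedron P → Q12 P f →
    ∃ Q : Set E3, IsPolyhedron Q ∧ numFaces Q = f ∧ iq Q < iq P := by
  obtain ⟨C, hC, N1, -, hcomp⟩ := competitorA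
  obtain ⟨N2, hno⟩ := no_good12 C hC
  obtain ⟨κ, hκ0, hκ⟩ := exists_kappa
  refine ⟨max (max N1 N2) 14, fun f hf P0 hP0 hM0 => ?_⟩
  have hf1 : N1 ≤ f := le_trans (le_trans (le_max_left _ _) (le_max_left _ _)) hf
  have hf2 : N2 ≤ f := le_trans (le_trans (le_max_right _ _) (le_max_left _ _)) hf
  have hf14 : 14 ≤ f := le_trans (le_max_right _ _) hf
  -- move an interior point to the origin
  obtain ⟨o, ho⟩ := hP0.1
  set P : Set E3 := (fun x => (1 : ℝ) • x + (-o)) '' P0 with hPdef
  have hP : IsPolyhedron P := poly_hom hP0 one_pos (-o)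
  have hM : Q12 P f := q12_hom hM0 one_pos (-o)
  have hiq : iq P = iq P0 := iq_hom P0 one_pos (-o)
  have h0 : (0 : E3) ∈ interior P := by
    have h1 : P = (Homeomorph.addRight (-o)) '' P0 := by
      rw [hPdef]; refine image_congr fun x _ => ?_
      simp
    rw [h1, ← Homeomorph.image_interior]
    exact ⟨o, ho, by simp⟩
  rw [← hiq]
  obtain ⟨S, h, hS, H⟩ := exists_PD hP h0
  have hcard : S.card = f := by
    have h1 := numFaces_eq hP.1
    rw [← hS, ncard_coe_finset] at h1
    rw [← h1, hM.1]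
  have HT := PD_polar H.unit H.orig
  obtain ⟨hTpos, hTiq⟩ := iq_polar hκ H.unit H.orig
  obtain ⟨hL1, hL2⟩ := lindelof H
  set A : ℝ := ∑ u ∈ S, ar P h u with hA
  have hVpos : 0 < (MeasureTheory.volume P).toReal := by
    refine ENNReal.toReal_pos ?_ (PD_compact H).measure_lt_top.ne
    have : 0 < MeasureTheory.volume (interior P) := isOpen_interior.measure_pos _ ⟨0, h0⟩
    exact (this.trans_le (MeasureTheory.measure_mono interior_subset)).ne'
  have hPiq : iq P = κ ^ 3 * A ^ 3 / (MeasureTheory.volume P).toReal ^ 2 := by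
    unfold iq; rw [hκ _ _ _ H, mul_pow]
  have hκ3 : 0 < κ ^ 3 := by positivity
  have hge : iq (polar S) ≤ iq P := by
    rw [hTiq, hPiq, le_div_iff₀ (by positivity)]
    calc 27 * κ ^ 3 * (MeasureTheory.volume (polar S)).toReal *
          (MeasureTheory.volume P).toReal ^ 2 =
        κ ^ 3 * (27 * (MeasureTheory.volume P).toReal ^ 2 *
          (MeasureTheory.volume (polar S)).toReal) := by ring
      _ ≤ κ ^ 3 * A ^ 3 := mul_le_mul_of_nonneg_left hL1 hκ3.le
  by_cases hV : (MeasureTheory.volume (polar S)).toReal ≤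
      4 * Real.pi / 3 + 20 * Real.pi ^ 2 / (9 * √3 * f) * (1 + C * (f : ℝ) ^ (-(1 / 4 : ℝ)))
  · by_contra hcon
    push Not at hcon
    have hle : iq P ≤ iq (polar S) := by
      refine hcon (polar S) (PD_poly HT).1 ?_
      rw [numFaces_eq (PD_poly HT).1.1, nrmls_polar H.unit H.orig, ncard_coe_finset, hcard]
    have hle2 : A ^ 3 ≤ 27 * (MeasureTheory.volume P).toReal ^ 2 *
        (MeasureTheory.volume (polar S)).toReal := by
      rw [hTiq, hPiq, div_le_iff₀ (by positivity)] at hle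
      have h3 : κ ^ 3 * A ^ 3 ≤ κ ^ 3 * (27 * (MeasureTheory.volume P).toReal ^ 2 *
          (MeasureTheory.volume (polar S)).toReal) := by
        calc _ ≤ _ := hle
          _ = _ := by ring
      exact le_of_mul_le_mul_left h3 hκ3
    obtain ⟨c, hc, t, hPT⟩ := hL2 hle2
    have hTP : polar S = (fun x => c⁻¹ • x + (-(c⁻¹ • t))) '' P := by
      rw [hPT, image_image]
      have : (fun x : E3 => c⁻¹ • (c • x + t) + (-(c⁻¹ • t))) = id := by
        funext x
        rw [smul_add, smul_smul, inv_mul_cancel₀ hc.ne', one_smul]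
        simp
      rw [this, image_id]
    have hMT : Q12 (polar S) f := by
      rw [hTP]; exact q12_hom hM (inv_pos.2 hc) _
    have hG : Good S := good_of_simple H.unit H.orig hMT.2.1
    exact hno f hf2 S hG hcard (defects_polar H.unit H.orig hMT.2.2) hV
  · push Not at hV
    obtain ⟨Y, hYc, hYu, hYo, hYV⟩ := hcomp f hf1
    obtain ⟨hYpos, hYiq⟩ := iq_polar hκ hYu hYo
    have HY := PD_polar hYu hYo
    refine ⟨polar Y, (PD_poly HY).1, ?_, ?_⟩
    · rw [numFaces_eq (PD_poly HY).1.1, nrmls_polar hYu hYo, ncard_coe_finset, hYc]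
    · refine lt_of_lt_of_le ?_ hge
      rw [hYiq, hTiq]
      exact mul_lt_mul_of_pos_left (hYV.trans_lt hV) (by positivity)

end Pool.Agent.H320.Def.Main
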